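import Pool.Agent.H364R2.Mult
import Mathlib

/-! T6 (transversal elements) of the subgroup version of the zero estimate (TEAM-TR). -/

open MvPolynomial

namespace Pool.Agent.H335R2

open Pool.Agent.H364R2

variable {σ : Type}

section LinAlg

variable {R : Type*} [CommRing R] {K : Type*} [Field K] (ι : R →+* K)

/-- clearing denominators in the span of a set of vectors stable under `R` -/
theorem span_clear {n : ℕ} (V : Set (Fin n → K)) (h0 : (0 : Fin n → K) ∈ V)
    (hadd : ∀ v ∈ V, ∀ w ∈ V, v + w ∈ V) (hmul : ∀ r : R, ∀ v ∈ V, (ι r) • v ∈ V)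
    (hden : ∀ k : K, ∃ a b : R, ι b ≠ 0 ∧ ι b * k = ι a)
    (x : Fin n → K) (hx : x ∈ Submodule.span K V) : ∃ d : R, ι d ≠ 0 ∧ (ι d) • x ∈ V := by
  refine Submodule.span_induction (hx := hx) ?_ ?_ ?_ ?_
  · intro v hv
    exact ⟨1, by simp, by simpa using hv⟩
  · exact ⟨1, by simp, by simpa using h0⟩
  · rintro v w _ _ ⟨d, hd, hdv⟩ ⟨e, he, hew⟩
    refine ⟨d * e, by rw [map_mul]; exact mul_ne_zero hd he, ?_⟩
    have h1 := hadd _ (hmul e _ hdv) _ (hmul d _ hew)
    have h2 : ι (d * e) • (v + w) = ι e • ι d • v + ι d • ι e • w := by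
      rw [map_mul, smul_add, smul_smul, smul_smul, mul_comm (ι e) (ι d)]
    rw [h2]; exact h1
  · rintro k v _ ⟨d, hd, hdv⟩
    obtain ⟨a, b, hb, hab⟩ := hden k
    refine ⟨d * b, by rw [map_mul]; exact mul_ne_zero hd hb, ?_⟩
    have h1 := hmul a _ hdv
    have h2 : ι (d * b) • k • v = ι a • ι d • v := by
      rw [smul_smul, smul_smul, ← hab, map_mul]
      congr 1; ring
    rw [h2]; exact h1

/-- a proper set of vectors stable under `R` is killed by a linear form with coefficients in `R` -/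
theorem exists_form {n : ℕ} (V : Set (Fin n → K))
    (hden : ∀ k : K, ∃ a b : R, ι b ≠ 0 ∧ ι b * k = ι a)
    (hV : Submodule.span K V ≠ ⊤) :
    ∃ w : Fin n → R, (∃ k, ι (w k) ≠ 0) ∧ ∀ v ∈ V, ∑ k, ι (w k) * v k = 0 := by
  classical
  obtain ⟨φ, hφ0, hφ⟩ := Submodule.exists_le_ker_of_lt_top _ (lt_top_iff_ne_top.mpr hV)
  choose a b hb hab using fun k => hden (φ (Pi.single k 1))
  refine ⟨fun k => a k * ∏ i ∈ Finset.univ.erase k, b i, ?_, ?_⟩
  · by_contra hcon
    push Not at hcon
    apply hφ0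
    apply LinearMap.ext
    intro v
    rw [LinearMap.pi_apply_eq_sum_univ φ v, LinearMap.zero_apply]
    apply Finset.sum_eq_zero
    intro k _
    have h1 := hcon k
    rw [map_mul, map_prod] at h1
    have h2 : ∏ i ∈ Finset.univ.erase k, ι (b i) ≠ 0 := Finset.prod_ne_zero_iff.mpr (fun i _ => hb i)
    have h3 : ι (a k) = 0 := (mul_eq_zero.mp h1).resolve_right h2
    rw [← hab k] at h3
    have h4 := (mul_eq_zero.mp h3).resolve_left (hb k)
    have h5 : (fun j => if k = j then (1:K) else 0) = Pi.single k 1 := by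
      funext j
      by_cases h : k = j
      · subst h; simp
      · rw [if_neg h, Pi.single_eq_of_ne (Ne.symm h)]
    rw [h5, h4, smul_zero]
  · intro v hv
    have h1 : φ v = 0 := hφ (Submodule.subset_span hv)
    rw [LinearMap.pi_apply_eq_sum_univ φ v] at h1
    have h2 : ∑ k, ι (a k * ∏ i ∈ Finset.univ.erase k, b i) * v k =
        (∏ i, ι (b i)) * ∑ k, v k • φ (fun j => if k = j then 1 else 0) := by
      rw [Finset.mul_sum]
      apply Finset.sum_congr rfl
      intro k _
      have h5 : (fun j => if k = j then (1:K) else 0) = Pi.single k 1 := by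
        funext j
        by_cases h : k = j
        · subst h; simp
        · rw [if_neg h, Pi.single_eq_of_ne (Ne.symm h)]
      rw [h5, map_mul, map_prod, ← hab k, ← Finset.mul_prod_erase Finset.univ _ (Finset.mem_univ k),
        smul_eq_mul]
      ring
    rw [h2, h1, mul_zero]

end LinAlg

lemma der_sum (add : σ → Bool) {l : ℕ} (W : Fin l → σ → ℂ) (c : Fin l → ℂ)
    (f : MvPolynomial σ ℂ) :
    der add (fun j => ∑ k, c k * W k j) f = ∑ k, C (c k) * der add (W k) f := by
  induction f using MvPolynomial.induction_on with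
  | C a => simp
  | add p q hp hq =>
    rw [map_add, hp, hq, ← Finset.sum_add_distrib]
    apply Finset.sum_congr rfl
    intro k _
    rw [map_add]; ring
  | mul_X p j hp =>
    rw [Derivation.leibniz, hp, smul_eq_mul, smul_eq_mul, der_X]
    have h1 : ∀ k, C (c k) * der add (W k) (p * X j) =
        p * (C (c k) * (if add j then C (W k j) else C (W k j) * X j)) +
          X j * (C (c k) * der add (W k) p) := by
      intro k
      rw [Derivation.leibniz, smul_eq_mul, smul_eq_mul, der_X]
      ring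
    rw [Finset.sum_congr rfl (fun k _ => h1 k), Finset.sum_add_distrib, ← Finset.mul_sum,
      ← Finset.mul_sum]
    congr 2
    split_ifs
    · rw [map_sum]
      apply Finset.sum_congr rfl
      intro k _
      rw [map_mul]
    · rw [map_sum, Finset.sum_mul]
      apply Finset.sum_congr rfl
      intro k _
      rw [map_mul]; ring

/-- T6 (transversal elements) -/
theorem exists_transversal (add : σ → Bool) {P : Ideal (MvPolynomial σ ℂ)} (hP : GPrime add P)
    (hT1 : ∀ f : MvPolynomial σ ℂ, (∀ v, (IsG add v ∧ ∀ g ∈ P, eval v g = 0) → eval v f = 0) →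
      f ∈ P)
    (hhom : ∀ v, (IsG add v ∧ ∀ g ∈ P, eval v g = 0) → ∀ v', (IsG add v' ∧ ∀ g ∈ P, eval v' g = 0) →
      trI add (gmul add v' (ginv add v)) P = P)
    {l : ℕ} (W : Fin l → σ → ℂ)
    (hW : ∀ c : Fin l → ℂ, (∀ f ∈ P, der add (fun j => ∑ k, c k * W k j) f ∈ P) → c = 0) :
    ∃ f : Fin l → MvPolynomial σ ℂ, (∀ k, f k ∈ P) ∧ (∀ k, der add (W k) (f k) ∉ P) ∧
      (∀ k k', k ≠ k' → der add (W k) (f k') ∈ P) := by
  classical
  have hprime : P.IsPrime := hP.1
  let A := MvPolynomial σ ℂ ⧸ P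
  let ι : MvPolynomial σ ℂ →+* FractionRing A := (algebraMap A (FractionRing A)).comp
    (Ideal.Quotient.mk P)
  have hι : ∀ r, ι r = 0 ↔ r ∈ P := by
    intro r
    change algebraMap A (FractionRing A) (Ideal.Quotient.mk P r) = 0 ↔ _
    rw [← Ideal.Quotient.eq_zero_iff_mem]
    constructor
    · intro h
      exact (FaithfulSMul.algebraMap_injective A (FractionRing A)) (by rw [h, map_zero])
    · intro h; rw [h, map_zero]
  have hden : ∀ k : FractionRing A, ∃ a b : MvPolynomial σ ℂ, ι b ≠ 0 ∧ ι b * k = ι a := by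
    intro k
    obtain ⟨⟨x, s⟩, h⟩ := IsLocalization.surj (nonZeroDivisors A) k
    obtain ⟨a, ha⟩ := Ideal.Quotient.mk_surjective x
    obtain ⟨b, hb⟩ := Ideal.Quotient.mk_surjective (s : A)
    refine ⟨a, b, ?_, ?_⟩
    · change algebraMap A (FractionRing A) (Ideal.Quotient.mk P b) ≠ 0
      rw [hb]
      intro h0
      exact nonZeroDivisors.ne_zero s.2
        ((FaithfulSMul.algebraMap_injective A (FractionRing A)) (by rw [h0, map_zero]))
    · change algebraMap A (FractionRing A) (Ideal.Quotient.mk P b) * k =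
        algebraMap A (FractionRing A) (Ideal.Quotient.mk P a)
      rw [hb, ha, mul_comm]; exact h
  let V : Set (Fin l → FractionRing A) := {v | ∃ f ∈ P, v = fun k => ι (der add (W k) f)}
  have hV0 : (0 : Fin l → FractionRing A) ∈ V := ⟨0, P.zero_mem, by funext k; simp⟩
  have hVadd : ∀ v ∈ V, ∀ w ∈ V, v + w ∈ V := by
    rintro _ ⟨f, hf, rfl⟩ _ ⟨g, hg, rfl⟩
    exact ⟨f + g, P.add_mem hf hg, by funext k; simp⟩
  have hVmul : ∀ r, ∀ v ∈ V, (ι r) • v ∈ V := by
    rintro r _ ⟨f, hf, rfl⟩
    refine ⟨r * f, P.mul_mem_left _ hf, ?_⟩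
    funext k
    rw [Derivation.leibniz, smul_eq_mul, smul_eq_mul, map_add, map_mul, map_mul,
      (hι f).mpr hf, zero_mul, add_zero]
    rfl
  by_cases htop : Submodule.span (FractionRing A) V = ⊤
  · have h1 : ∀ k0 : Fin l, ∃ f ∈ P, (der add (W k0) f ∉ P) ∧
        ∀ k, k ≠ k0 → der add (W k) f ∈ P := by
      intro k0
      obtain ⟨d, hd, f, hf, hdf⟩ := span_clear ι V hV0 hVadd hVmul hden (Pi.single k0 1)
        (by rw [htop]; trivial)
      refine ⟨f, hf, ?_, ?_⟩
      · intro h
        have h2 := congrFun hdf k0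
        simp only [Pi.smul_apply, Pi.single_eq_same, smul_eq_mul, mul_one] at h2
        rw [(hι _).mpr h] at h2
        exact hd h2
      · intro k hk
        have h2 := congrFun hdf k
        simp only [Pi.smul_apply, Pi.single_eq_of_ne hk, smul_eq_mul, mul_zero] at h2
        exact (hι _).mp h2.symm
    choose f hf h2 h3 using h1
    exact ⟨f, hf, h2, fun k k' hk => h3 k' k hk⟩
  · exfalso
    obtain ⟨w, ⟨k0, hk0⟩, hw⟩ := exists_form ι V hden htop
    have hk0' : w k0 ∉ P := fun h => hk0 ((hι _).mpr h)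
    have hw' : ∀ f ∈ P, ∑ k, w k * der add (W k) f ∈ P := by
      intro f hf
      rw [← hι, map_sum]
      rw [← hw _ ⟨f, hf, rfl⟩]
      apply Finset.sum_congr rfl
      intro k _
      rw [map_mul]
    obtain ⟨z, hz, hzw⟩ : ∃ z, (IsG add z ∧ ∀ g ∈ P, eval z g = 0) ∧ eval z (w k0) ≠ 0 := by
      by_contra hcon
      push Not at hcon
      exact hk0' (hT1 _ hcon)
    have hc : (fun k => eval z (w k)) = 0 := by
      apply hW
      intro f hf
      apply hT1
      intro z' hz'
      rw [der_sum, map_sum]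
      have hh := hhom z hz z' hz'
      have hf' : tr add (gmul add z' (ginv add z)) f ∈ P := by
        rw [← mem_trI, hh]; exact hf
      have h1 := hz.2 _ (hw' _ hf')
      rw [map_sum] at h1
      rw [← h1]
      apply Finset.sum_congr rfl
      intro k _
      rw [map_mul, map_mul, eval_C, der_tr, eval_tr]
      congr 2
      rw [gmul_comm add z' _, ← gmul_assoc, gmul_ginv add hz.1, gone_gmul]
    exact hzw (congrFun hc k0)

end Pool.Agent.H335R2
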