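import Pool.Agent.H364R2.Mult
import Mathlib
import Pool.Agent.H335R2.T6

/-! T2, T3, T6 of the subgroup version of the zero estimate (TEAM-TR). -/

open MvPolynomial

namespace Pool.Agent.H335R2

open Pool.Agent.H364R2

variable {σ : Type}

/-- T2 (dimension) -/
theorem eq_of_le {P Q : Ideal (MvPolynomial σ ℂ)} (hP : P.IsPrime) (hQ : Q.IsPrime) (hQP : Q ≤ P)
    {B : Set σ} (hB : Indep P B) (hd : ∀ j ∉ B, ¬ Indep Q (insert j B)) : Q = P := by
  have hBQ : Indep Q B := fun f hf hfQ => hB f hf (hQP hfQ)
  have h1 := maximal_map hQ hBQ hd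
  have h2 := prime_map hP hB
  have h3 := h1.eq_of_le h2.ne_top (Ideal.map_mono hQP)
  rw [← comap_map_phi hQ hBQ, ← comap_map_phi hP hB, h3]

/-- independence in the sense of `Indep` is algebraic independence of the coordinates -/
theorem indep_iff {P : Ideal (MvPolynomial σ ℂ)} {B : Set σ} :
    Indep P B ↔ AlgebraicIndepOn ℂ (fun j : σ => Ideal.Quotient.mkₐ ℂ P (X j)) B := by
  have key : ∀ a : MvPolynomial B ℂ, aeval (fun j : B => Ideal.Quotient.mkₐ ℂ P (X (j : σ))) a =
      Ideal.Quotient.mkₐ ℂ P (rename Subtype.val a) := by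
    intro a
    induction a using MvPolynomial.induction_on with
    | C a =>
      rw [rename_C]
      change _ = Ideal.Quotient.mkₐ ℂ P (algebraMap ℂ _ a)
      rw [AlgHom.commutes]
      exact AlgHom.commutes _ _
    | add p q hp hq => rw [map_add, map_add, map_add, hp, hq]
    | mul_X p j hp => rw [map_mul, map_mul, map_mul, hp, aeval_X, rename_X]
  constructor
  · intro h
    rw [AlgebraicIndepOn, algebraicIndependent_iff]
    intro a ha
    rw [key, Ideal.Quotient.mkₐ_eq_mk, Ideal.Quotient.eq_zero_iff_mem] at ha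
    have h1 := h _ (rename_mem_supported a) ha
    apply rename_injective (Subtype.val : B → σ) Subtype.val_injective
    rw [h1, map_zero]
  · intro h f hf hfP
    rw [AlgebraicIndepOn, algebraicIndependent_iff] at h
    obtain ⟨a, rfl⟩ := exists_rename_of_mem_supported hf
    rw [h a (by rw [key, Ideal.Quotient.mkₐ_eq_mk, Ideal.Quotient.eq_zero_iff_mem]; exact hfP),
      map_zero]

theorem indepOn_iff {A : Type*} [CommRing A] [IsDomain A] [Algebra ℂ A] (x : σ → A) (B : Set σ) :
    AlgebraicIndepOn ℂ x B ↔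
      ((AlgebraicIndependent.matroid ℂ A).comap x).Indep B := by
  rw [Matroid.comap_indep_iff, AlgebraicIndependent.matroid_indep_iff]
  constructor
  · intro h
    have hinj : Set.InjOn x B := by
      have := AlgebraicIndependent.injective h
      intro a ha b hb hab
      exact congrArg Subtype.val (@this ⟨a, ha⟩ ⟨b, hb⟩ hab)
    exact ⟨(algebraicIndependent_image hinj).mp h, hinj⟩
  · rintro ⟨h, hinj⟩
    exact (algebraicIndependent_image hinj).mpr h

/-- T3 (matroid property) -/
theorem exists_insert {P : Ideal (MvPolynomial σ ℂ)} (hP : P.IsPrime) {B B1 : Finset σ}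
    (hB : Indep P (B : Set σ)) (hB1 : Indep P (B1 : Set σ)) (hc : B.card < B1.card) :
    ∃ j ∈ B1, j ∉ B ∧ Indep P (insert j (B : Set σ)) := by
  classical
  have hA : IsDomain (MvPolynomial σ ℂ ⧸ P) := inferInstance
  rw [indep_iff, indepOn_iff] at hB hB1
  obtain ⟨e, he, heB, h⟩ := hB.augment_finset hB1 hc
  refine ⟨e, he, heB, ?_⟩
  rw [indep_iff, indepOn_iff]
  exact h

end Pool.Agent.H335R2
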