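import Mathlib
import Pool.Agent.H335R2.Obs.Obs2
import Pool.Agent.H297R2.BakerThm

/-! Inhomogeneous Baker theorem. -/

open Finset Module

namespace Pool.Agent.H335R2

open Pool.Agent.H335R2.Obs

/-- the main case: `β` linearly independent over `ℚ` and `β₀ ≠ 0` -/
theorem baker_main {n : ℕ} (L : Fin n → ℂ) (halg : ∀ i, IsAlgebraic ℚ (Complex.exp (L i)))
    (β : Fin n → ℂ) (hβ : ∀ i, IsAlgebraic ℚ (β i)) (β0 : ℂ) (hβ0 : IsAlgebraic ℚ β0)
    (hn : 0 < n) (hβli : LinearIndependent ℚ β) (hβ00 : β0 ≠ 0)
    (hsum : β0 + ∑ i, β i * L i = 0) : False := by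
  classical
  obtain ⟨k0, -⟩ : ∃ k0 : Fin n, True := ⟨⟨0, hn⟩, trivial⟩
  have hk0 : β k0 ≠ 0 := hβli.ne_zero k0
  -- configuration
  let γ : Fin n → Fin n → ℂ := fun i j =>
    if j = k0 then (if i = k0 then -β0 / β k0 else -β i / β k0) else (if i = j then 1 else 0)
  let ω : Fin n → Fin 1 → ℂ := fun i _ => if i = k0 then 1 else L i
  let σ := n + 2
  obtain ⟨Af, Rm, G0, δ, h1, h2, h3, h4, h5⟩ := obstruction2 (w := n) (b := n) (l := 1) (r := 0)
    {k0} γ ω (fun j _ => L j) (fun ρ _ => ρ.elim0) (fun ρ _ => ρ.elim0)
    (by
      intro i j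
      simp only [γ]
      split_ifs
      · rw [div_eq_mul_inv]; exact hβ0.neg.mul (hβ k0).inv
      · rw [div_eq_mul_inv]; exact (hβ i).neg.mul (hβ k0).inv
      · exact isAlgebraic_one
      · exact isAlgebraic_zero)
    (by
      intro i hi p
      rw [Finset.mem_singleton] at hi
      simp only [ω, if_pos hi]
      exact isAlgebraic_one)
    (fun j _ => halg j)
    (by
      intro j p
      simp only [Finset.univ_eq_empty, Finset.sum_empty, zero_add, γ, ω]
      by_cases hj : j = k0
      · subst hj
        simp only [if_true]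
        have e1 : ∑ i, (if i = j then -β0 / β j else -β i / β j) * (if i = j then 1 else L i) =
            -β0 / β j - (∑ i, β i * L i - β j * L j) / β j := by
          rw [← Finset.add_sum_erase _ _ (Finset.mem_univ j),
            ← Finset.add_sum_erase _ (fun i => β i * L i) (Finset.mem_univ j)]
          simp only [if_true, mul_one, add_sub_cancel_left]
          rw [sub_eq_add_neg]
          congr 1
          rw [← neg_div, ← Finset.sum_neg_distrib, Finset.sum_div]
          apply Finset.sum_congr rfl
          intro i hi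
          rw [if_neg (Finset.ne_of_mem_erase hi), if_neg (Finset.ne_of_mem_erase hi)]
          ring
        rw [e1]
        have e2 : ∑ i, β i * L i = -β0 := by
          rw [eq_neg_iff_add_eq_zero, add_comm]; exact hsum
        rw [e2]
        field_simp
        ring
      · rw [Finset.sum_eq_single j]
        · simp [hj]
        · intro i _ hi
          simp [hj, hi]
        · simp)
    (n * σ + n + 1) (n * σ + n + 1 - σ) σ
    (by
      have : σ ≤ n * σ := Nat.le_mul_of_pos_left _ hn
      omega)
    (by
      have h0 : σ ≤ n * σ := Nat.le_mul_of_pos_left _ hn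
      rw [Finset.card_singleton, one_mul, zero_add]
      have e1 : n * (n * σ + n + 1 - σ) = n * (n * σ + n + 1) - n * σ := by
        rw [Nat.mul_sub]
      rw [e1]
      have h6 : n * σ ≤ n * (n * σ + n + 1) := Nat.mul_le_mul_left _ (by omega)
      have e2 : (n * σ + n + 1 + 1) * n = n * (n * σ + n + 1) + n := by ring
      omega)
  have hσ : σ = n + 2 := rfl
  have hσκ : σ ≤ n * σ := Nat.le_mul_of_pos_left _ hn
  -- the additive part has dimension at most one
  have hd0 : finrank ℂ Af ≤ 1 := by
    have h6 : Af ≤ Submodule.span ℂ {Pi.single k0 (1 : ℂ)} := by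
      intro a ha
      rw [Submodule.mem_span_singleton]
      refine ⟨a k0, ?_⟩
      funext i
      by_cases hi : i = k0
      · subst hi; simp
      · simp [Pi.single_eq_of_ne hi, h1 a ha i (by simpa using hi)]
    exact (Submodule.finrank_mono h6).trans ((finrank_span_le_card _).trans (by simp))
  -- the kernel
  have hker : ∀ m : Fin n → ℂ, (fun i => ∑ j, γ i j * m j) ∈ Af →
      (∀ i, m i = (m k0 / β k0) * β i) ∧ ∑ j, γ k0 j * m j = -β0 / β k0 * m k0 := by
    intro m hm
    constructor
    · intro i
      by_cases hi : i = k0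
      · subst hi; field_simp
      · have h6 := h1 _ hm i (by simpa using hi)
        have h7 : ∑ j, γ i j * m j = m i - β i / β k0 * m k0 := by
          rw [← Finset.add_sum_erase _ _ (Finset.mem_univ k0),
            Finset.sum_eq_single i]
          · simp only [γ, if_true, if_neg hi]
            ring
          · intro j hj hji
            have hj' := Finset.ne_of_mem_erase hj
            simp only [γ, if_neg hj', if_neg (Ne.symm hji), zero_mul]
          · intro h
            exact absurd (Finset.mem_erase.mpr ⟨hi, Finset.mem_univ _⟩) h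
        rw [h7] at h6
        linear_combination h6
    · rw [Finset.sum_eq_single k0]
      · simp only [γ, if_true]
      · intro j _ hj
        simp only [γ, if_neg hj, if_neg (Ne.symm hj), zero_mul]
      · simp
  have hμ : n * σ + n + 1 - σ + σ = n * σ + n + 1 := by omega
  set μ := n * σ + n + 1 - σ with hμd
  by_cases hcase : β ∈ kSpan ℂ Rm ∧ Af ≠ ⊥
  · obtain ⟨hβR, hAf⟩ := hcase
    have h6 := h4 (Submodule.span ℂ {β}) (by
      intro m hm hGm
      rw [Submodule.mem_span_singleton]
      exact ⟨m k0 / β k0, funext fun i => ((hker m hGm).1 i).symm⟩)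
    have h7 : finrank ℂ (Submodule.span ℂ {β}) ≤ 1 := (finrank_span_le_card _).trans (by simp)
    have h8 : 1 ≤ finrank ℂ Af := by
      by_contra hcon
      apply hAf
      apply Submodule.finrank_eq_zero.mp
      omega
    have h9 : n ≤ finrank ℤ Rm := by
      by_contra hcon
      obtain ⟨q, hq0, hq⟩ := exists_rat_form Rm (by omega)
      have h10 := form_cSpan hq hβR
      rw [Fintype.linearIndependent_iff] at hβli
      apply hq0
      funext i
      apply hβli q
      rw [← h10]
      apply Finset.sum_congr rfl
      intro i _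
      rw [Algebra.smul_def]
      rfl
    have h9' : finrank ℤ Rm ≤ n := by
      have h10 := Submodule.finrank_le (kSpan ℂ Rm)
      rwa [finrank_kSpan, finrank_fintype_fun_eq_card, Fintype.card_fin] at h10
    have h10 : G0 = ⊥ := by
      rw [eq_bot_iff]
      intro s hs
      obtain ⟨a, ha, ha0⟩ := Submodule.exists_mem_ne_zero_of_ne_bot hAf
      have h11 := ((h3 s).mp hs).1 a ha
      have h12 : a k0 ≠ 0 := by
        intro h
        apply ha0
        funext i
        by_cases hi : i = k0
        · rw [hi, h]; rfl
        · exact h1 a ha i (by simpa using hi)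
      rw [Finset.sum_eq_single k0] at h11
      · simp only [ω, if_true, Fin.sum_univ_one, one_mul] at h11
        have h13 : (s 0 : ℂ) = 0 := (mul_eq_zero.mp h11).resolve_left h12
        rw [AddSubgroup.mem_bot]
        funext p
        rw [Subsingleton.elim p 0]
        exact_mod_cast h13
      · intro i _ hi
        rw [h1 a ha i (by simpa using hi), zero_mul]
      · simp
    have h11 : finrank ℤ G0 = 0 := by
      rw [h10]; exact finrank_zero_of_subsingleton
    have h12 : finrank ℤ Rm = n := le_antisymm h9' h9
    have h13 : finrank ℂ Af = 1 := le_antisymm hd0 h8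
    rw [h11, h12, h13] at h5
    have h14 : n ≤ δ := by omega
    have h15 : n * (n * σ + n + 1) ≤ δ * (n * σ + n + 1) := Nat.mul_le_mul_right _ h14
    have h16 : n * μ + n * σ = n * (n * σ + n + 1) := by rw [← mul_add, hμ]
    rcases h5 with h5 | ⟨h5, -⟩ <;> omega
  · have h6 := h4 ⊥ (by
      intro m hm hGm
      rw [Submodule.mem_bot]
      obtain ⟨h7, h8⟩ := hker m hGm
      by_contra hm0
      have hmk : m k0 ≠ 0 := by
        intro h
        apply hm0
        funext i
        rw [h7 i, h]; simp
      apply hcase
      constructor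
      · have h9 : β = (β k0 / m k0) • m := by
          funext i
          rw [Pi.smul_apply, smul_eq_mul, h7 i]
          field_simp
        rw [h9]
        exact Submodule.smul_mem _ _ hm
      · intro h
        rw [h, Submodule.mem_bot] at hGm
        have h9 : ∑ j, γ k0 j * m j = 0 := congrFun hGm k0
        rw [h9] at h8
        have h10 : -β0 / β k0 * m k0 ≠ 0 :=
          mul_ne_zero (div_ne_zero (neg_ne_zero.mpr hβ00) hk0) hmk
        exact h10 h8.symm)
    rw [finrank_bot, add_zero] at h6
    rcases h5 with h5 | ⟨h5, h7, h8⟩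
    · have h9 : finrank ℂ Af * (n * σ + n + 1) + finrank ℤ Rm * μ ≤
          finrank ℂ Af * (n * σ + n + 1) + finrank ℤ Rm * (n * σ + n + 1) := by
        apply Nat.add_le_add_left
        apply Nat.mul_le_mul_left
        omega
      have h10 : (finrank ℂ Af + finrank ℤ Rm) * (n * σ + n + 1) ≤ δ * (n * σ + n + 1) :=
        Nat.mul_le_mul_right _ h6
      rw [add_mul] at h10
      omega
    · apply h2
      constructor
      · apply Submodule.finrank_eq_zero.mp
        omega
      · obtain ⟨E, hE1, hE2⟩ := finrank_toInt Rm
        have h9 : (univ \ E).card = 0 := by omega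
        rw [Finset.card_eq_zero, Finset.sdiff_eq_empty_iff_subset] at h9
        rw [eq_bot_iff]
        intro m hm
        rw [AddSubgroup.mem_bot]
        exact hE2 m hm (fun i hi => absurd (h9 (Finset.mem_univ i)) hi)

theorem isAlgebraic_exp_rat {L : ℂ} (h : IsAlgebraic ℚ (Complex.exp L)) (q : ℚ) :
    IsAlgebraic ℚ (Complex.exp ((q : ℂ) * L)) := by
  have h1 : Complex.exp ((q : ℂ) * L) ^ q.den = Complex.exp L ^ q.num := by
    rw [← Complex.exp_nat_mul, ← Complex.exp_int_mul]
    congr 1
    have h2 : (q.num : ℂ) = (q : ℂ) * (q.den : ℂ) := by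
      have h3 := congrArg (fun z : ℚ => (z : ℂ)) (Rat.mul_den_eq_num q)
      push_cast at h3
      exact h3.symm
    rw [h2]; ring
  apply IsAlgebraic.of_pow q.den_pos
  rw [h1]
  rcases q.num with m | m
  · rw [Int.ofNat_eq_natCast, zpow_natCast]; exact h.pow m
  · rw [zpow_negSucc]; exact (h.pow _).inv

/-- **Baker**: a linear form in logarithms of algebraic numbers with algebraic coefficients is
not a nonzero algebraic number. -/
theorem baker_const : ∀ (n : ℕ) (L : Fin n → ℂ), (∀ i, IsAlgebraic ℚ (Complex.exp (L i))) →
    ∀ (β : Fin n → ℂ), (∀ i, IsAlgebraic ℚ (β i)) → ∀ (β0 : ℂ), IsAlgebraic ℚ β0 →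
    β0 + ∑ i, β i * L i = 0 → β0 = 0 := by
  classical
  intro n
  induction n with
  | zero => intro L _ β _ β0 _ h; simpa using h
  | succ n ih =>
    intro L hL β hβ β0 hβ0 hsum
    by_contra h0
    by_cases hli : LinearIndependent ℚ β
    · exact baker_main L hL β hβ β0 hβ0 (Nat.succ_pos n) hli h0 hsum
    · rw [Fintype.not_linearIndependent_iff] at hli
      obtain ⟨g, hg, k, hk⟩ := hli
      apply h0
      have hk' : (g k : ℂ) ≠ 0 := by exact_mod_cast hk
      apply ih (fun i => L (k.succAbove i) +
          ((-(g (k.succAbove i) / g k) : ℚ) : ℂ) * L k) ?_ (fun i => β (k.succAbove i))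
        (fun i => hβ _) β0 hβ0 ?_
      · intro i
        rw [Complex.exp_add]
        exact (hL _).mul (isAlgebraic_exp_rat (hL k) _)
      · rw [← hsum, Fin.sum_univ_succAbove (fun i => β i * L i) k]
        congr 1
        rw [Fin.sum_univ_succAbove _ k] at hg
        simp only [Algebra.smul_def] at hg
        have hg' : (g k : ℂ) * β k = -∑ i, (g (k.succAbove i) : ℂ) * β (k.succAbove i) := by
          rw [eq_neg_iff_add_eq_zero]
          exact hg
        have e1 : β k * L k = -∑ i, (g (k.succAbove i) : ℂ) / g k * β (k.succAbove i) * L k := by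
          have : β k = -(∑ i, (g (k.succAbove i) : ℂ) * β (k.succAbove i)) / g k := by
            rw [← hg']; field_simp
          rw [this, neg_div, neg_mul, Finset.sum_div, Finset.sum_mul]
          congr 1
          apply Finset.sum_congr rfl
          intro i _
          ring
        rw [e1, ← Finset.sum_neg_distrib, ← Finset.sum_add_distrib]
        apply Finset.sum_congr rfl
        intro i _
        push_cast
        ring

/-- **Baker's theorem** (inhomogeneous form): `1` and `ℚ`-linearly independent logarithms of
algebraic numbers are linearly independent over the algebraic numbers. -/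
theorem baker_inhom {ι : Type} [Fintype ι] (L : ι → ℂ) (halg : ∀ i, IsAlgebraic ℚ (Complex.exp (L i)))
    (hL : LinearIndependent ℚ L) (β0 : ℂ) (hβ0 : IsAlgebraic ℚ β0) (β : ι → ℂ)
    (hβ : ∀ i, IsAlgebraic ℚ (β i)) (hsum : β0 + ∑ i, β i * L i = 0) :
    β0 = 0 ∧ ∀ i, β i = 0 := by
  classical
  have h0 : β0 = 0 := by
    let e := Fintype.equivFin ι
    apply baker_const (Fintype.card ι) (fun i => L (e.symm i)) (fun i => halg _)
      (fun i => β (e.symm i)) (fun i => hβ _) β0 hβ0
    rw [← hsum]
    congr 1
    exact Equiv.sum_comp e.symm (fun i => β i * L i)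
  refine ⟨h0, ?_⟩
  rw [h0, zero_add] at hsum
  exact Pool.Agent.H297R2.baker L halg hL β hβ hsum

end Pool.Agent.H335R2
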