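import Mathlib
import Pool.Agent.H335R2.BakerInhom

/-! Convenient forms of Baker's theorem for two or three logarithms. -/

namespace Pool.Agent.H335R2

theorem bi2 {l1 l2 : ℂ} (h1 : IsAlgebraic ℚ (Complex.exp l1)) (h2 : IsAlgebraic ℚ (Complex.exp l2))
    (hli : ∀ p q : ℚ, (p : ℂ) * l1 + (q : ℂ) * l2 = 0 → p = 0 ∧ q = 0)
    {a b c : ℂ} (ha : IsAlgebraic ℚ a) (hb : IsAlgebraic ℚ b) (hc : IsAlgebraic ℚ c)
    (h : a + b * l1 + c * l2 = 0) : a = 0 ∧ b = 0 ∧ c = 0 := by
  have hL : LinearIndependent ℚ ![l1, l2] := by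
    rw [LinearIndependent.pair_iff]
    intro p q hpq
    apply hli
    simpa [Algebra.smul_def] using hpq
  obtain ⟨h3, h4⟩ := baker_inhom ![l1, l2] (by
    intro i
    fin_cases i
    · exact h1
    · exact h2) hL a ha ![b, c] (by
    intro i
    fin_cases i
    · exact hb
    · exact hc) (by simpa [Fin.sum_univ_two, add_assoc] using h)
  exact ⟨h3, by simpa using h4 0, by simpa using h4 1⟩

theorem bc1 {l1 : ℂ} (h1 : IsAlgebraic ℚ (Complex.exp l1))
    {a b : ℂ} (ha : IsAlgebraic ℚ a) (hb : IsAlgebraic ℚ b)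
    (h : a + b * l1 = 0) : a = 0 :=
  baker_const 1 ![l1] (by intro i; fin_cases i; exact h1) ![b] (by intro i; fin_cases i; exact hb)
    a ha (by simpa using h)

theorem bc2 {l1 l2 : ℂ} (h1 : IsAlgebraic ℚ (Complex.exp l1)) (h2 : IsAlgebraic ℚ (Complex.exp l2))
    {a b c : ℂ} (ha : IsAlgebraic ℚ a) (hb : IsAlgebraic ℚ b) (hc : IsAlgebraic ℚ c)
    (h : a + b * l1 + c * l2 = 0) : a = 0 :=
  baker_const 2 ![l1, l2] (by
    intro i
    fin_cases i
    · exact h1
    · exact h2) ![b, c] (by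
    intro i
    fin_cases i
    · exact hb
    · exact hc) a ha (by simpa [Fin.sum_univ_two, add_assoc] using h)

theorem bc3 {l1 l2 l3 : ℂ} (h1 : IsAlgebraic ℚ (Complex.exp l1))
    (h2 : IsAlgebraic ℚ (Complex.exp l2)) (h3 : IsAlgebraic ℚ (Complex.exp l3))
    {a b c d : ℂ} (ha : IsAlgebraic ℚ a) (hb : IsAlgebraic ℚ b) (hc : IsAlgebraic ℚ c)
    (hd : IsAlgebraic ℚ d) (h : a + b * l1 + c * l2 + d * l3 = 0) : a = 0 :=
  baker_const 3 ![l1, l2, l3] (by
    intro i
    fin_cases i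
    · exact h1
    · exact h2
    · exact h3) ![b, c, d] (by
    intro i
    fin_cases i
    · exact hb
    · exact hc
    · exact hd) a ha (by simpa [Fin.sum_univ_three, add_assoc] using h)

/-- homogeneous form for two logarithms: the ratio of two logarithms is rational or
transcendental -/
theorem bh2 {l1 l2 : ℂ} (h1 : IsAlgebraic ℚ (Complex.exp l1)) (h2 : IsAlgebraic ℚ (Complex.exp l2))
    (hl2 : l2 ≠ 0) {b : ℂ} (hb : IsAlgebraic ℚ b) (h : l1 = b * l2) : ∃ q : ℚ, b = q := by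
  by_cases hli : ∀ p q : ℚ, (p : ℂ) * l1 + (q : ℂ) * l2 = 0 → p = 0 ∧ q = 0
  · have := (bi2 h1 h2 hli (a := 0) (b := 1) (c := -b) isAlgebraic_zero isAlgebraic_one hb.neg
      (by rw [h]; ring)).2.1
    exact absurd this one_ne_zero
  · push Not at hli
    obtain ⟨p, q, hpq, hne⟩ := hli
    have hp : p ≠ 0 := by
      intro hp
      apply hne hp
      rw [hp] at hpq
      have : (q : ℂ) * l2 = 0 := by simpa using hpq
      exact_mod_cast (mul_eq_zero.mp this).resolve_right hl2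
    have hp' : (p : ℂ) ≠ 0 := by exact_mod_cast hp
    refine ⟨-q / p, ?_⟩
    rw [h] at hpq
    have h3 : ((p : ℂ) * b + q) * l2 = 0 := by linear_combination hpq
    have h4 := (mul_eq_zero.mp h3).resolve_right hl2
    push_cast
    rw [eq_div_iff hp']
    linear_combination h4

end Pool.Agent.H335R2
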