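import Mathlib
import Pool.Agent.H335R2.BI
import Pool.Agent.H340R2.LW
import Pool.Agent.H301R2.SSE.Forms

/-! If `π e` is algebraic then at most one of `e^e`, `π^e`, `π^π`, `e^(π^2)` is algebraic. -/

open Complex

namespace Pool.Agent.H335R2

open Pool.Agent.H301R2.SSE

/-- Roy's strong six exponentials theorem -/
theorem roy (x1 x2 y1 y2 y3 : ℂ)
    (hx : ∀ a b : ℂ, IsAlgebraic ℚ a → IsAlgebraic ℚ b → a * x1 + b * x2 = 0 → a = 0 ∧ b = 0)
    (hy : ∀ a b c : ℂ, IsAlgebraic ℚ a → IsAlgebraic ℚ b → IsAlgebraic ℚ c →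
      a * y1 + b * y2 + c * y3 = 0 → a = 0 ∧ b = 0 ∧ c = 0)
    (h11 : x1 * y1 ∈ Lt) (h12 : x1 * y2 ∈ Lt) (h13 : x1 * y3 ∈ Lt) (h21 : x2 * y1 ∈ Lt)
    (h22 : x2 * y2 ∈ Lt) (h23 : x2 * y3 ∈ Lt) : False := by
  refine strong_six ![x1, x2] ![y1, y2, y3] ?_ ?_ ?_
  · intro a b ha hb h
    exact hx a b ha hb (by simpa using h)
  · intro c hc h j
    have := hy (c 0) (c 1) (c 2) (hc 0) (hc 1) (hc 2) (by
      simpa [Fin.sum_univ_three] using h)
    fin_cases j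
    · exact this.1
    · exact this.2.1
    · exact this.2.2
  · intro i j
    fin_cases i <;> fin_cases j <;> simp <;> assumption

theorem lt0 {a : ℂ} (ha : IsAlgebraic ℚ a) : a ∈ Lt := Lt_alg ha

theorem lt1 {a b l z : ℂ} (ha : IsAlgebraic ℚ a) (hb : IsAlgebraic ℚ b)
    (hl : IsAlgebraic ℚ (exp l)) (h : z = a + b * l) : z ∈ Lt := by
  rw [h]; exact Lt.add_mem (Lt_alg ha) (Lt_mul hb (Lt_log hl))

theorem lt2 {a b l c m z : ℂ} (ha : IsAlgebraic ℚ a) (hb : IsAlgebraic ℚ b)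
    (hl : IsAlgebraic ℚ (exp l)) (hc : IsAlgebraic ℚ c)
    (hm : IsAlgebraic ℚ (exp m)) (h : z = a + b * l + c * m) : z ∈ Lt := by
  rw [h]; exact Lt.add_mem (Lt.add_mem (Lt_alg ha) (Lt_mul hb (Lt_log hl))) (Lt_mul hc (Lt_log hm))

theorem algC {x : ℝ} (h : IsAlgebraic ℚ x) : IsAlgebraic ℚ (x : ℂ) := h.algebraMap (A := ℂ)

theorem alg_neg_one_exp : IsAlgebraic ℚ (exp (Real.pi * I)) := by
  rw [exp_pi_mul_I]; exact isAlgebraic_one.neg

theorem piC_transcendental : Transcendental ℚ (Real.pi : ℂ) := by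
  intro h
  apply Pool.Agent.H340R2.LW.transcendental_pi
  exact (isAlgebraic_algebraMap_iff (algebraMap ℝ ℂ).injective).mp h

/-- independence of a real number and `π i` over the rationals -/
theorem real_piI {x : ℝ} (hx : x ≠ 0) (p q : ℚ) (h : (p : ℂ) * (x : ℂ) + (q : ℂ) * (Real.pi * I) = 0) :
    p = 0 ∧ q = 0 := by
  have e1 : ((p : ℂ) * (x : ℂ) + (q : ℂ) * (Real.pi * I)) =
      ((p * x : ℝ) : ℂ) + ((q * Real.pi : ℝ) : ℂ) * I := by
    push_cast; ring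
  rw [e1] at h
  have h1 : (p : ℝ) * x = 0 := by
    have := congrArg Complex.re h
    simpa only [Complex.add_re, Complex.ofReal_re, Complex.mul_re, Complex.I_re, Complex.ofReal_im,
      Complex.I_im, mul_zero, zero_mul, sub_zero, add_zero, Complex.zero_re] using this
  have h2 : (q : ℝ) * Real.pi = 0 := by
    have := congrArg Complex.im h
    simpa only [Complex.add_im, Complex.ofReal_im, Complex.mul_im, Complex.I_re, Complex.ofReal_re,
      Complex.I_im, mul_zero, mul_one, zero_add, add_zero, Complex.zero_im] using this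
  exact ⟨by exact_mod_cast (mul_eq_zero.mp h1).resolve_right hx,
    by exact_mod_cast (mul_eq_zero.mp h2).resolve_right Real.pi_ne_zero⟩

/-- the argument common to all pairs -/
theorem pairM {y2 y3 : ℂ} (h2 : y2 ∈ Lt) (h2' : (Real.pi : ℂ) * y2 ∈ Lt)
    (h3 : y3 ∈ Lt) (h3' : (Real.pi : ℂ) * y3 ∈ Lt)
    (hind : ∀ a b c : ℂ, IsAlgebraic ℚ a → IsAlgebraic ℚ b → IsAlgebraic ℚ c →
      a + b * y2 + c * y3 = 0 → a = 0 ∧ b = 0 ∧ c = 0) : False := by
  refine roy 1 (Real.pi : ℂ) 1 y2 y3 ?_ ?_ ?_ ?_ ?_ ?_ ?_ ?_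
  · intro a b ha hb h
    by_cases hb0 : b = 0
    · rw [hb0] at h
      exact ⟨by simpa using h, hb0⟩
    · exfalso
      apply piC_transcendental
      have : (Real.pi : ℂ) = -a / b := by
        rw [eq_div_iff hb0]; linear_combination h
      rw [this, div_eq_mul_inv]
      exact ha.neg.mul hb.inv
  · intro a b c ha hb hc h
    exact hind a b c ha hb hc (by rw [← h]; ring)
  · rw [one_mul]; exact lt0 isAlgebraic_one
  · rw [one_mul]; exact h2
  · rw [one_mul]; exact h3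
  · refine lt1 (a := 0) (b := -I) isAlgebraic_zero
      Pool.Agent.H340R2.LW.isAlgebraic_I.neg alg_neg_one_exp ?_
    linear_combination (Real.pi : ℂ) * Complex.I_mul_I
  · exact h2'
  · exact h3'

section M

variable (hr : IsAlgebraic ℚ (Real.pi * Real.exp 1))
include hr

theorem hrC : IsAlgebraic ℚ ((Real.pi : ℂ) * (Real.exp 1 : ℂ)) := by
  have := algC hr
  push_cast at this ⊢
  exact this

theorem rho_alg : IsAlgebraic ℚ (exp (1 + (Real.log Real.pi : ℂ))) := by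
  have h1 : exp (1 + (Real.log Real.pi : ℂ)) = (Real.pi : ℂ) * (Real.exp 1 : ℂ) := by
    rw [Complex.exp_add, ← Complex.ofReal_exp (Real.log Real.pi), Real.exp_log Real.pi_pos, mul_comm]
    push_cast
    rfl
  rw [h1]; exact hrC hr

omit hr in
theorem log_pi_pos : 0 < Real.log Real.pi := Real.log_pos (by linarith [Real.pi_gt_three])

omit hr in
theorem rho_ne : (1 + (Real.log Real.pi : ℂ)) ≠ 0 := by
  have h := log_pi_pos
  have : (1 + (Real.log Real.pi : ℂ)) = ((1 + Real.log Real.pi : ℝ) : ℂ) := by push_cast; ring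
  rw [this, Complex.ofReal_ne_zero]
  linarith

omit hr in
theorem r_ne : ((Real.pi : ℂ) * (Real.exp 1 : ℂ)) ≠ 0 := by
  refine mul_ne_zero ?_ ?_
  · exact_mod_cast Real.pi_ne_zero
  · exact_mod_cast (Real.exp_pos 1).ne'

omit hr in
theorem exp_ee (h : IsAlgebraic ℚ (Real.exp 1 ^ Real.exp 1)) :
    IsAlgebraic ℚ (exp (Real.exp 1 : ℂ)) := by
  have h1 : exp (Real.exp 1 : ℂ) = ((Real.exp 1 ^ Real.exp 1 : ℝ) : ℂ) := by
    rw [← Complex.ofReal_exp, Real.exp_one_rpow]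
  rw [h1]; exact algC h

omit hr in
theorem exp_pie (h : IsAlgebraic ℚ (Real.pi ^ Real.exp 1)) :
    IsAlgebraic ℚ (exp ((Real.exp 1 : ℂ) * (Real.log Real.pi : ℂ))) := by
  have h1 : exp ((Real.exp 1 : ℂ) * (Real.log Real.pi : ℂ)) = ((Real.pi ^ Real.exp 1 : ℝ) : ℂ) := by
    rw [← Complex.ofReal_mul, ← Complex.ofReal_exp, Real.rpow_def_of_pos Real.pi_pos, mul_comm]
  rw [h1]; exact algC h

omit hr in
theorem exp_pipi (h : IsAlgebraic ℚ (Real.pi ^ Real.pi)) :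
    IsAlgebraic ℚ (exp ((Real.pi : ℂ) * (Real.log Real.pi : ℂ))) := by
  have h1 : exp ((Real.pi : ℂ) * (Real.log Real.pi : ℂ)) = ((Real.pi ^ Real.pi : ℝ) : ℂ) := by
    rw [← Complex.ofReal_mul, ← Complex.ofReal_exp, Real.rpow_def_of_pos Real.pi_pos, mul_comm]
  rw [h1]; exact algC h

omit hr in
theorem exp_pisq (h : IsAlgebraic ℚ (Real.exp (Real.pi ^ 2))) :
    IsAlgebraic ℚ (exp ((Real.pi : ℂ) * (Real.pi : ℂ))) := by
  have h1 : exp ((Real.pi : ℂ) * (Real.pi : ℂ)) = ((Real.exp (Real.pi ^ 2) : ℝ) : ℂ) := by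
    rw [← Complex.ofReal_mul, ← Complex.ofReal_exp, sq]
  rw [h1]; exact algC h

omit hr in
theorem pi_eq : (Real.pi : ℂ) = -I * (Real.pi * I) := by
  linear_combination (Real.pi : ℂ) * Complex.I_mul_I

-- membership of the columns
theorem col1 : (Real.log Real.pi : ℂ) ∈ Lt :=
  lt1 (a := -1) (b := 1) isAlgebraic_one.neg isAlgebraic_one (rho_alg hr) (by ring)

omit hr in
theorem col1' (h : IsAlgebraic ℚ (Real.pi ^ Real.pi)) :
    (Real.pi : ℂ) * (Real.log Real.pi : ℂ) ∈ Lt :=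
  lt1 (a := 0) (b := 1) isAlgebraic_zero isAlgebraic_one (exp_pipi h) (by ring)

omit hr in
theorem col2 (h : IsAlgebraic ℚ (Real.exp 1 ^ Real.exp 1)) : (Real.exp 1 : ℂ) ∈ Lt :=
  lt1 (a := 0) (b := 1) isAlgebraic_zero isAlgebraic_one (exp_ee h) (by ring)

theorem col2' : (Real.pi : ℂ) * (Real.exp 1 : ℂ) ∈ Lt := lt0 (hrC hr)

omit hr in
theorem col3 (h : IsAlgebraic ℚ (Real.pi ^ Real.exp 1)) :
    (Real.exp 1 : ℂ) * (Real.log Real.pi : ℂ) ∈ Lt :=
  lt1 (a := 0) (b := 1) isAlgebraic_zero isAlgebraic_one (exp_pie h) (by ring)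

theorem col3' : (Real.pi : ℂ) * ((Real.exp 1 : ℂ) * (Real.log Real.pi : ℂ)) ∈ Lt :=
  lt1 (a := -((Real.pi : ℂ) * (Real.exp 1 : ℂ))) (b := (Real.pi : ℂ) * (Real.exp 1 : ℂ))
    (hrC hr).neg (hrC hr) (rho_alg hr) (by ring)

omit hr in
theorem col4 : (Real.pi : ℂ) ∈ Lt :=
  lt1 (a := 0) (b := -I) isAlgebraic_zero Pool.Agent.H340R2.LW.isAlgebraic_I.neg alg_neg_one_exp
    (by rw [zero_add]; exact pi_eq)

omit hr in
theorem col4' (h : IsAlgebraic ℚ (Real.exp (Real.pi ^ 2))) :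
    (Real.pi : ℂ) * (Real.pi : ℂ) ∈ Lt :=
  lt1 (a := 0) (b := 1) isAlgebraic_zero isAlgebraic_one (exp_pisq h) (by ring)

/-- `e^e` and `π^e` -/
theorem M23 (h2 : IsAlgebraic ℚ (Real.exp 1 ^ Real.exp 1))
    (h3 : IsAlgebraic ℚ (Real.pi ^ Real.exp 1)) : False := by
  refine pairM (col2 h2) (col2' hr) (col3 h3) (col3' hr) ?_
  intro a b c ha hb hc h
  refine bi2 (exp_ee h2) (exp_pie h3) ?_ ha hb hc h
  intro p q hpq
  have h4 : (Real.exp 1 : ℂ) * (((p : ℝ) + (q : ℝ) * Real.log Real.pi : ℝ) : ℂ) = 0 := by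
    push_cast at hpq ⊢
    linear_combination hpq
  have h5 : (p : ℝ) + (q : ℝ) * Real.log Real.pi = 0 := by
    have := (mul_eq_zero.mp h4).resolve_left (by exact_mod_cast (Real.exp_pos 1).ne')
    exact_mod_cast this
  by_cases hq : q = 0
  · subst hq
    simp at h5
    exact ⟨by exact_mod_cast h5, rfl⟩
  · exfalso
    have hq' : (q : ℝ) ≠ 0 := by exact_mod_cast hq
    have h6 : Real.log Real.pi = ((-p / q : ℚ) : ℝ) := by
      push_cast
      rw [eq_div_iff hq']; linarith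
    have h7 : IsAlgebraic ℚ (1 + (Real.log Real.pi : ℂ)) := by
      rw [h6]
      push_cast
      have : (1 + (-(p : ℂ) / (q : ℂ))) = algebraMap ℚ ℂ (1 + -p / q) := by
        simp
      rw [this]
      exact isAlgebraic_algebraMap _
    exact Pool.Agent.H340R2.LW.transcendental_cexp _ h7 rho_ne (rho_alg hr)

/-- `e^e` and `e^(π^2)` -/
theorem M24 (h2 : IsAlgebraic ℚ (Real.exp 1 ^ Real.exp 1))
    (h4 : IsAlgebraic ℚ (Real.exp (Real.pi ^ 2))) : False := by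
  refine pairM (col2 h2) (col2' hr) col4 (col4' h4) ?_
  intro a b c ha hb hc h
  have h5 := bi2 (exp_ee h2) alg_neg_one_exp
    (fun p q hpq => real_piI (Real.exp_pos 1).ne' p q hpq) ha hb
    (hc.mul Pool.Agent.H340R2.LW.isAlgebraic_I.neg) (by
      rw [← h]
      linear_combination (-(c * (Real.pi : ℂ))) * Complex.I_mul_I)
  refine ⟨h5.1, h5.2.1, ?_⟩
  exact (mul_eq_zero.mp h5.2.2).resolve_right (neg_ne_zero.mpr Complex.I_ne_zero)

/-- `π^e` and `e^(π^2)` -/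
theorem M34 (h3 : IsAlgebraic ℚ (Real.pi ^ Real.exp 1))
    (h4 : IsAlgebraic ℚ (Real.exp (Real.pi ^ 2))) : False := by
  refine pairM (col3 h3) (col3' hr) col4 (col4' h4) ?_
  intro a b c ha hb hc h
  have h5 := bi2 (exp_pie h3) alg_neg_one_exp
    (fun p q hpq => real_piI (x := Real.exp 1 * Real.log Real.pi)
      (mul_ne_zero (Real.exp_pos 1).ne' log_pi_pos.ne') p q (by push_cast at hpq ⊢; exact hpq)) ha hb
    (hc.mul Pool.Agent.H340R2.LW.isAlgebraic_I.neg) (by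
      rw [← h]
      linear_combination (-(c * (Real.pi : ℂ))) * Complex.I_mul_I)
  refine ⟨h5.1, h5.2.1, ?_⟩
  exact (mul_eq_zero.mp h5.2.2).resolve_right (neg_ne_zero.mpr Complex.I_ne_zero)

/-- `π^π` and `e^(π^2)` -/
theorem M14 (h4 : IsAlgebraic ℚ (Real.exp (Real.pi ^ 2)))
    (h1 : IsAlgebraic ℚ (Real.pi ^ Real.pi)) : False := by
  refine pairM (col1 hr) (col1' h1) col4 (col4' h4) ?_
  intro a b c ha hb hc h
  have h5 := bi2 (rho_alg hr) alg_neg_one_exp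
    (fun p q hpq => real_piI (x := 1 + Real.log Real.pi)
      (by have := log_pi_pos; linarith) p q (by push_cast at hpq ⊢; exact hpq)) (ha.sub hb) hb
    (hc.mul Pool.Agent.H340R2.LW.isAlgebraic_I.neg) (by
      rw [← h]
      linear_combination (-(c * (Real.pi : ℂ))) * Complex.I_mul_I)
  have h6 : b = 0 := h5.2.1
  refine ⟨by have := h5.1; rw [h6, sub_zero] at this; exact this, h6, ?_⟩
  exact (mul_eq_zero.mp h5.2.2).resolve_right (neg_ne_zero.mpr Complex.I_ne_zero)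

omit hr in
/-- a rational dependence between `l` and `ρ` -/
theorem dep {l ρ : ℂ} (hρ : ρ ≠ 0)
    (h : ¬ ∀ p q : ℚ, (p : ℂ) * l + (q : ℂ) * ρ = 0 → p = 0 ∧ q = 0) :
    ∃ s : ℚ, l = s * ρ := by
  push Not at h
  obtain ⟨p, q, hpq, hne⟩ := h
  have hp : p ≠ 0 := by
    intro hp
    apply hne hp
    rw [hp] at hpq
    have : (q : ℂ) * ρ = 0 := by simpa using hpq
    exact_mod_cast (mul_eq_zero.mp this).resolve_right hρ
  have hp' : (p : ℂ) ≠ 0 := by exact_mod_cast hp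
  refine ⟨-q / p, ?_⟩
  push_cast
  field_simp
  linear_combination hpq

omit hr in
theorem algQ (s : ℚ) : IsAlgebraic ℚ (s : ℂ) := isAlgebraic_algebraMap s

/-- `e^e` and `π^π` -/
theorem M12 (h1 : IsAlgebraic ℚ (Real.pi ^ Real.pi))
    (h2 : IsAlgebraic ℚ (Real.exp 1 ^ Real.exp 1)) : False := by
  refine pairM (col2 h2) (col2' hr) (col1 hr) (col1' h1) ?_
  intro a b c ha hb hc h
  by_cases hli : ∀ p q : ℚ, (p : ℂ) * (Real.exp 1 : ℂ) + (q : ℂ) * (1 + (Real.log Real.pi : ℂ)) = 0 →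
      p = 0 ∧ q = 0
  · have h5 := bi2 (exp_ee h2) (rho_alg hr) hli (ha.sub hc) hb hc (by rw [← h]; ring)
    refine ⟨by have := h5.1; rw [h5.2.2, sub_zero] at this; exact this, h5.2.1, h5.2.2⟩
  · exfalso
    obtain ⟨s, hs⟩ := dep rho_ne hli
    -- `r = s π + s π log π`
    have h6 := bc2 (a := (Real.pi : ℂ) * (Real.exp 1 : ℂ)) (b := (s : ℂ) * I) (c := -(s : ℂ))
      alg_neg_one_exp (exp_pipi h1) (hrC hr)
      ((algQ s).mul Pool.Agent.H340R2.LW.isAlgebraic_I) (algQ s).neg (by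
        rw [hs]
        linear_combination ((s : ℂ) * (Real.pi : ℂ)) * Complex.I_mul_I)
    exact r_ne h6

/-- `π^e` and `π^π` -/
theorem M13 (h1 : IsAlgebraic ℚ (Real.pi ^ Real.pi))
    (h3 : IsAlgebraic ℚ (Real.pi ^ Real.exp 1)) : False := by
  refine pairM (col3 h3) (col3' hr) (col1 hr) (col1' h1) ?_
  intro a b c ha hb hc h
  by_cases hli : ∀ p q : ℚ, (p : ℂ) * ((Real.exp 1 : ℂ) * (Real.log Real.pi : ℂ)) +
      (q : ℂ) * (1 + (Real.log Real.pi : ℂ)) = 0 → p = 0 ∧ q = 0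
  · have h5 := bi2 (exp_pie h3) (rho_alg hr) hli (ha.sub hc) hb hc (by rw [← h]; ring)
    refine ⟨by have := h5.1; rw [h5.2.2, sub_zero] at this; exact this, h5.2.1, h5.2.2⟩
  · exfalso
    obtain ⟨s, hs⟩ := dep rho_ne hli
    -- `r log π = s π + s π log π`, `log π = ρ - 1`
    have h6 := bc3 (a := -((Real.pi : ℂ) * (Real.exp 1 : ℂ))) (b := (s : ℂ) * I) (c := -(s : ℂ))
      (d := (Real.pi : ℂ) * (Real.exp 1 : ℂ))
      alg_neg_one_exp (exp_pipi h1) (rho_alg hr) (hrC hr).neg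
      ((algQ s).mul Pool.Agent.H340R2.LW.isAlgebraic_I) (algQ s).neg (hrC hr) (by
        linear_combination ((s : ℂ) * (Real.pi : ℂ)) * Complex.I_mul_I + (Real.pi : ℂ) * hs)
    exact r_ne (neg_eq_zero.mp h6)

end M

/-- **Theorem M.** If `π e` is algebraic, then at most one of the four numbers `π ^ π`, `e ^ e`,
`π ^ e`, `e ^ (π ^ 2)` is algebraic. -/
theorem theoremM (hr : IsAlgebraic ℚ (Real.pi * Real.exp 1)) :
    ¬ (IsAlgebraic ℚ (Real.pi ^ Real.pi) ∧ IsAlgebraic ℚ (Real.exp 1 ^ Real.exp 1)) ∧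
    ¬ (IsAlgebraic ℚ (Real.pi ^ Real.pi) ∧ IsAlgebraic ℚ (Real.pi ^ Real.exp 1)) ∧
    ¬ (IsAlgebraic ℚ (Real.pi ^ Real.pi) ∧ IsAlgebraic ℚ (Real.exp (Real.pi ^ 2))) ∧
    ¬ (IsAlgebraic ℚ (Real.exp 1 ^ Real.exp 1) ∧ IsAlgebraic ℚ (Real.pi ^ Real.exp 1)) ∧
    ¬ (IsAlgebraic ℚ (Real.exp 1 ^ Real.exp 1) ∧ IsAlgebraic ℚ (Real.exp (Real.pi ^ 2))) ∧
    ¬ (IsAlgebraic ℚ (Real.pi ^ Real.exp 1) ∧ IsAlgebraic ℚ (Real.exp (Real.pi ^ 2))) :=
  ⟨fun h => M12 hr h.1 h.2, fun h => M13 hr h.1 h.2, fun h => M14 hr h.2 h.1,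
    fun h => M23 hr h.1 h.2, fun h => M24 hr h.1 h.2, fun h => M34 hr h.1 h.2⟩

end Pool.Agent.H335R2
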