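import Mathlib
import Pool.Agent.H335R2.MThm

/-! `π^π` and `α^π` when `log π` is a linear combination of `1` and logarithms. -/

open Complex Pool.Agent.H301R2.SSE

namespace Pool.Agent.H335R2

theorem bi3 {l1 l2 l3 : ℂ} (h1 : IsAlgebraic ℚ (Complex.exp l1))
    (h2 : IsAlgebraic ℚ (Complex.exp l2)) (h3 : IsAlgebraic ℚ (Complex.exp l3))
    (hli : ∀ p q r : ℚ, (p : ℂ) * l1 + (q : ℂ) * l2 + (r : ℂ) * l3 = 0 → p = 0 ∧ q = 0 ∧ r = 0)
    {a b c d : ℂ} (ha : IsAlgebraic ℚ a) (hb : IsAlgebraic ℚ b) (hc : IsAlgebraic ℚ c)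
    (hd : IsAlgebraic ℚ d)
    (h : a + b * l1 + c * l2 + d * l3 = 0) : a = 0 ∧ b = 0 ∧ c = 0 ∧ d = 0 := by
  have hL : LinearIndependent ℚ ![l1, l2, l3] := by
    rw [Fintype.linearIndependent_iff]
    intro g hg
    have := hli (g 0) (g 1) (g 2) (by simpa [Algebra.smul_def, Fin.sum_univ_three] using hg)
    intro i
    fin_cases i
    · exact this.1
    · exact this.2.1
    · exact this.2.2
  obtain ⟨h4, h5⟩ := baker_inhom ![l1, l2, l3] (by
    intro i
    fin_cases i
    · exact h1
    · exact h2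
    · exact h3) hL a ha ![b, c, d] (by
    intro i
    fin_cases i
    · exact hb
    · exact hc
    · exact hd) (by simpa [Fin.sum_univ_three, add_assoc] using h)
  exact ⟨h4, by simpa using h5 0, by simpa using h5 1, by simpa using h5 2⟩

theorem alg_conj {z : ℂ} (h : IsAlgebraic ℚ z) : IsAlgebraic ℚ ((starRingEnd ℂ) z) := by
  obtain ⟨p, hp, hpz⟩ := h
  refine ⟨p, hp, ?_⟩
  have h1 := congrArg (starRingEnd ℂ) hpz
  rw [map_zero] at h1
  rw [← h1, Polynomial.aeval_def, Polynomial.aeval_def, Polynomial.hom_eval₂]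
  congr 1
  ext q
  simp

/-- if `π^π` and `e^(π λ)` are algebraic, `λ ≠ 0` a logarithm of an algebraic number, then
`1, log π, λ` are linearly independent over the algebraic numbers. -/
theorem indep_pipi {lam : ℂ} (h0 : lam ≠ 0) (hl : IsAlgebraic ℚ (exp lam))
    (h1 : IsAlgebraic ℚ (Real.pi ^ Real.pi)) (h2 : IsAlgebraic ℚ (exp (Real.pi * lam)))
    {a b c : ℂ} (ha : IsAlgebraic ℚ a) (hb : IsAlgebraic ℚ b) (hc : IsAlgebraic ℚ c)
    (h : a + b * (Real.log Real.pi : ℂ) + c * lam = 0) : a = 0 ∧ b = 0 ∧ c = 0 := by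
  have hI := Pool.Agent.H340R2.LW.isAlgebraic_I
  have hpi : (Real.pi : ℂ) ≠ 0 := by exact_mod_cast Real.pi_ne_zero
  have hreal : ∀ p q : ℚ, (p : ℂ) * ((Real.pi : ℂ) * (Real.log Real.pi : ℂ)) +
      (q : ℂ) * (Real.pi * I) = 0 → p = 0 ∧ q = 0 := fun p q hpq =>
    real_piI (x := Real.pi * Real.log Real.pi) (mul_ne_zero Real.pi_ne_zero log_pi_pos.ne') p q
      (by push_cast; exact hpq)
  by_cases hc0 : c = 0
  · subst hc0
    by_cases hb0 : b = 0
    · subst hb0
      refine ⟨?_, rfl, rfl⟩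
      simpa using h
    · exfalso
      have h3 := bi2 (exp_pipi h1) alg_neg_one_exp hreal (a := 0) (b := b) (c := -(a * I))
        isAlgebraic_zero hb (ha.mul hI).neg (by
          linear_combination (Real.pi : ℂ) * h - (a * (Real.pi : ℂ)) * Complex.I_mul_I)
      exact hb0 h3.2.1
  · exfalso
    have hrel : (0 : ℂ) + c * (Real.pi * lam) + b * ((Real.pi : ℂ) * (Real.log Real.pi : ℂ)) +
        (-(a * I)) * (Real.pi * I) = 0 := by
      linear_combination (Real.pi : ℂ) * h - (a * (Real.pi : ℂ)) * Complex.I_mul_I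
    by_cases hli : ∀ p q r : ℚ, (p : ℂ) * (Real.pi * lam) +
        (q : ℂ) * ((Real.pi : ℂ) * (Real.log Real.pi : ℂ)) + (r : ℂ) * (Real.pi * I) = 0 →
        p = 0 ∧ q = 0 ∧ r = 0
    · have h3 := bi3 h2 (exp_pipi h1) alg_neg_one_exp hli isAlgebraic_zero hc hb (ha.mul hI).neg hrel
      exact hc0 h3.2.1
    · push Not at hli
      obtain ⟨p, q, r, hpqr, hne⟩ := hli
      have hp : p ≠ 0 := by
        intro hp
        subst hp
        obtain ⟨h3, h4⟩ := hreal q r (by simpa using hpqr)
        exact hne rfl h3 h4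
      have hp' : (p : ℂ) ≠ 0 := by exact_mod_cast hp
      -- `λ = s log π + t i`
      have hlam : lam = ((-q / p : ℚ) : ℂ) * (Real.log Real.pi : ℂ) + ((-r / p : ℚ) : ℂ) * I := by
        have h3 : (Real.pi : ℂ) * ((p : ℂ) * lam + (q : ℂ) * (Real.log Real.pi : ℂ) + (r : ℂ) * I) = 0 := by
          linear_combination hpqr
        have h4 := (mul_eq_zero.mp h3).resolve_left hpi
        push_cast
        field_simp
        linear_combination h4
      set s : ℚ := -q / p with hs
      set t : ℚ := -r / p with ht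
      by_cases hs0 : s = 0
      · rw [hs0] at hlam
        have h5 : lam = (t : ℂ) * I := by rw [hlam]; simp
        have h6 : IsAlgebraic ℚ lam := by rw [h5]; exact (isAlgebraic_algebraMap t).mul hI
        exact Pool.Agent.H340R2.LW.transcendental_cexp _ h6 h0 hl
      · have h5 : IsAlgebraic ℚ (exp (((2 * s : ℚ) : ℂ) * (Real.log Real.pi : ℂ))) := by
          have h6 : (starRingEnd ℂ) lam = (s : ℂ) * (Real.log Real.pi : ℂ) - (t : ℂ) * I := by
            rw [hlam, map_add, map_mul, map_mul, Complex.conj_I, Complex.conj_ofReal]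
            have e1 : (starRingEnd ℂ) (s : ℂ) = (s : ℂ) := by
              rw [← Complex.ofReal_ratCast, Complex.conj_ofReal]
            have e2 : (starRingEnd ℂ) (t : ℂ) = (t : ℂ) := by
              rw [← Complex.ofReal_ratCast, Complex.conj_ofReal]
            rw [e1, e2]; ring
          have h7 := hl.mul (alg_conj hl)
          rw [← Complex.exp_conj, ← Complex.exp_add, h6] at h7
          have e3 : lam + ((s : ℂ) * (Real.log Real.pi : ℂ) - (t : ℂ) * I) =
              ((2 * s : ℚ) : ℂ) * (Real.log Real.pi : ℂ) := by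
            push_cast
            linear_combination hlam
          rw [e3] at h7
          exact h7
        have h6 := isAlgebraic_exp_rat h5 (1 / (2 * s))
        have h7 : ((1 / (2 * s) : ℚ) : ℂ) * (((2 * s : ℚ) : ℂ) * (Real.log Real.pi : ℂ)) =
            (Real.log Real.pi : ℂ) := by
          have : (s : ℂ) ≠ 0 := by exact_mod_cast hs0
          push_cast
          field_simp
        rw [h7, ← Complex.ofReal_exp, Real.exp_log Real.pi_pos] at h6
        exact piC_transcendental h6

/-- If `log π` is a linear combination with algebraic coefficients of `1` and logarithms of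
algebraic numbers, then for every nonzero logarithm `λ` of an algebraic number, at least one of
`π ^ π`, `e ^ (π λ)` is transcendental. -/
theorem pipi_or {lam : ℂ} (h0 : lam ≠ 0) (hl : IsAlgebraic ℚ (exp lam))
    (hlog : (Real.log Real.pi : ℂ) ∈ Lt)
    (h1 : IsAlgebraic ℚ (Real.pi ^ Real.pi)) (h2 : IsAlgebraic ℚ (exp (Real.pi * lam))) : False := by
  refine pairM hlog (col1' h1) (Lt_log hl) (Lt_log h2) ?_
  intro a b c ha hb hc h
  exact indep_pipi h0 hl h1 h2 ha hb hc h

theorem sum_mem_Lt {n : ℕ} {c0 : ℂ} {c L : Fin n → ℂ} (h0 : IsAlgebraic ℚ c0)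
    (hc : ∀ i, IsAlgebraic ℚ (c i)) (hL : ∀ i, IsAlgebraic ℚ (exp (L i))) :
    c0 + ∑ i, c i * L i ∈ Lt :=
  Lt.add_mem (Lt_alg h0) (Submodule.sum_mem _ (fun i _ => Lt_mul (hc i) (Lt_log (hL i))))

end Pool.Agent.H335R2
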